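import Pool.Agent.Helper97.NR.Defs

/-!
Part X4 of `MP_b63a31_co`, Q2: from families of branch sets to shallow minors.
-/

set_option autoImplicit false

namespace Pool.Agent.H25.NR

open Sum Pool.Agent.Helper97.NR

/-- a walk from a vertex of `S` to a vertex outside `S` leaves `S` along an edge -/
theorem exit_edge {W : Type} {G : SimpleGraph W} (S : Set W) {u v : W} (p : G.Walk u v) :
    u ∈ S → v ∉ S → ∃ a b : W, a ∈ S ∧ b ∉ S ∧ G.Adj a b ∧ a ∈ p.support ∧ b ∈ p.support := by
  induction p with
  | nil => intro h1 h2; exact absurd h1 h2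
  | @cons a b c hab q ih =>
    intro h1 h2
    by_cases hb : b ∈ S
    · obtain ⟨a', b', h3, h4, h5, h6, h7⟩ := ih hb h2
      exact ⟨a', b', h3, h4, h5, by simp [h6], by simp [h7]⟩
    · exact ⟨a, b, h1, hb, hab, by simp, by simp⟩

/-- Lipschitz functions along walks inside a set -/
theorem lip_walk {W : Type} {G : SimpleGraph W} (B : Set W) (f : W → ℕ)
    (hf : ∀ x ∈ B, ∀ y ∈ B, G.Adj x y → f y ≤ f x + 1) {u v : W} (p : G.Walk u v) :
    (∀ z ∈ p.support, z ∈ B) → f v ≤ f u + p.length := by
  induction p with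
  | nil => intro _; simp
  | @cons a b c hab q ih =>
    intro h
    have h1 := ih (fun z hz => h z (by simp [hz]))
    have h2 := hf a (h a (by simp)) b (h b (by simp)) hab
    rw [SimpleGraph.Walk.length_cons]
    omega

theorem lip_walk' {W : Type} {G : SimpleGraph W} (B : Set W) (f : W → ℕ)
    (hf : ∀ x ∈ B, ∀ y ∈ B, G.Adj x y → f y ≤ f x + 1) {u v : W} (p : G.Walk u v)
    (h : ∀ z ∈ p.support, z ∈ B) : f u ≤ f v + p.length := by
  have := lip_walk B f hf p.reverse (by intro z hz; exact h z (by simpa using hz))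
  simpa using this

/-- X4: from families of sets to shallow minors. -/
theorem edges_le {g : Gad} {r D : ℕ} (hD : 2 ≤ D) (h : Sparse g r D) (n : ℕ)
    (H : SimpleGraph (Fin n)) (B : Fin n → Set (Bool ⊕ g.V)) (x : Fin n → Bool ⊕ g.V)
    (hdis : ∀ i j, i ≠ j → Disjoint (B i) (B j))
    (hB : ∀ i, x i ∈ B i ∧ ∀ y ∈ B i, ∃ p : g.A.Walk (x i) y,
      p.length ≤ r ∧ ∀ z ∈ p.support, z ∈ B i)
    (hH : ∀ i j, H.Adj i j → ∃ a ∈ B i, ∃ b ∈ B j, g.A.Adj a b) :
    H.edgeSet.ncard ≤ D * n := by
  classical
  have hconn : ∀ i, Conn g (B i) := by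
    intro i S ⟨z, hzS, hzB⟩ ⟨y, hyB, hyS⟩
    obtain ⟨p, -, hp⟩ := (hB i).2 _ hzB
    obtain ⟨q, -, hq⟩ := (hB i).2 _ hyB
    obtain ⟨a, b, ha, hb, hab, ha', hb'⟩ := exit_edge (inr '' S) (p.reverse.append q)
      ⟨z, hzS, rfl⟩ hyS
    obtain ⟨z', hz'S, rfl⟩ := ha
    have hin : ∀ w ∈ (p.reverse.append q).support, w ∈ B i := by
      intro w hw
      rw [SimpleGraph.Walk.mem_support_append_iff] at hw
      rcases hw with hw | hw
      · exact hp w (by simpa using hw)
      · exact hq w hw
    exact ⟨z', hz'S, hin _ ha', b, hin _ hb', hb, hab⟩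
  have hdiam : ∀ i, Diam g r (B i) := by
    intro i f hf a ha b hb
    obtain ⟨p, hpl, hp⟩ := (hB i).2 _ ha
    obtain ⟨q, hql, hq⟩ := (hB i).2 _ hb
    have h1 := lip_walk' (B i) f hf p hp
    have h2 := lip_walk (B i) f hf q hq
    omega
  obtain ⟨Out, hout, harc⟩ := h (Fin n) B hdis hconn (fun i _ => hdiam i)
  -- at most two sets with an end
  have htwo : (Finset.univ.filter fun j => HasEnd (B j)).card ≤ 2 := by
    have hch : ∀ j ∈ Finset.univ.filter (fun j => HasEnd (B j)), ∃ b : Bool, inl b ∈ B j := by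
      intro j hj
      exact (Finset.mem_filter.1 hj).2
    choose! e he using hch
    have hcard := Finset.card_le_card_of_injOn (s := Finset.univ.filter fun j => HasEnd (B j))
      (t := (Finset.univ : Finset Bool)) e (fun _ _ => Finset.mem_coe.2 (Finset.mem_univ _)) (by
        intro i hi j hj hij
        by_contra hne
        have h1 := he i (Finset.mem_coe.1 hi)
        have h2 := he j (Finset.mem_coe.1 hj)
        rw [hij] at h1
        exact Set.disjoint_left.1 (hdis i j hne) h1 h2)
    simpa using hcard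
  let Out' : Fin n → Fin n → Prop := fun i j =>
    (¬ HasEnd (B i) ∧ Out i j) ∨ (HasEnd (B i) ∧ HasEnd (B j))
  have hOut' : ∀ i, (Finset.univ.filter fun j => Out' i j).card ≤ D := by
    intro i
    by_cases hi : HasEnd (B i)
    · refine le_trans (Finset.card_le_card ?_) (htwo.trans hD)
      intro j hj
      simp only [Out', Finset.mem_filter, Finset.mem_univ, true_and] at hj ⊢
      rcases hj with hj | hj
      · exact absurd hi hj.1
      · exact hj.2
    · have h1 := hout i hi
      rw [Set.ncard_eq_toFinset_card'] at h1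
      refine le_trans (Finset.card_le_card ?_) h1
      intro j hj
      simp only [Out', Finset.mem_filter, Finset.mem_univ, true_and] at hj
      rw [Set.mem_toFinset]
      rcases hj with hj | hj
      · exact hj.2
      · exact absurd hj.1 hi
  let T : Finset (Sym2 (Fin n)) :=
    Finset.univ.biUnion fun i => (Finset.univ.filter fun j => Out' i j).image fun j => s(i, j)
  have hT : T.card ≤ n * D := by
    have := Finset.card_biUnion_le_card_mul (Finset.univ : Finset (Fin n))
      (fun i => (Finset.univ.filter fun j => Out' i j).image fun j => s(i, j)) D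
      (fun i _ => (Finset.card_image_le).trans (hOut' i))
    simpa [T] using this
  have hsub : H.edgeSet ⊆ (T : Set (Sym2 (Fin n))) := by
    intro e
    induction e using Sym2.ind with
    | _ i j =>
      intro hij
      rw [SimpleGraph.mem_edgeSet] at hij
      have hne : i ≠ j := hij.ne
      have key : Out' i j ∨ Out' j i := by
        by_cases hi : HasEnd (B i)
        · by_cases hj : HasEnd (B j)
          · exact Or.inl (Or.inr ⟨hi, hj⟩)
          · right
            left
            exact ⟨hj, (harc j i hne.symm hj (hH j i hij.symm)).1 hi⟩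
        · by_cases hj : HasEnd (B j)
          · left
            left
            exact ⟨hi, (harc i j hne hi (hH i j hij)).1 hj⟩
          · rcases (harc i j hne hi (hH i j hij)).2 with ho | ho
            · exact Or.inl (Or.inl ⟨hi, ho⟩)
            · exact Or.inr (Or.inl ⟨hj, ho⟩)
      rw [Finset.mem_coe]
      rcases key with ho | ho
      · exact Finset.mem_biUnion.2 ⟨i, Finset.mem_univ _, Finset.mem_image.2
          ⟨j, Finset.mem_filter.2 ⟨Finset.mem_univ _, ho⟩, rfl⟩⟩
      · exact Finset.mem_biUnion.2 ⟨j, Finset.mem_univ _, Finset.mem_image.2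
          ⟨i, Finset.mem_filter.2 ⟨Finset.mem_univ _, ho⟩, Sym2.eq_swap⟩⟩
  calc H.edgeSet.ncard ≤ (T : Set (Sym2 (Fin n))).ncard :=
        Set.ncard_le_ncard hsub (Finset.finite_toSet T)
    _ = T.card := Set.ncard_coe_finset T
    _ ≤ n * D := hT
    _ = D * n := mul_comm _ _

end Pool.Agent.H25.NR
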